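import Mathlib
import Pool.Agent.Helper139.Tw4

/-!
A shift invariant mean on the bounded real sequences and the orthogonality of the binary digits.
-/

set_option autoImplicit false
open Filter Topology
open scoped BoundedContinuousFunction

namespace Pool.Agent.W688.CBX

noncomputable section

/-- bounded sequences -/
def Bd (h : ℕ → ℝ) : Prop := ∃ C, ∀ n, |h n| ≤ C

lemma Bd.add {f g : ℕ → ℝ} (hf : Bd f) (hg : Bd g) : Bd fun n => f n + g n := by
  obtain ⟨C, hC⟩ := hf
  obtain ⟨D, hD⟩ := hg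
  exact ⟨C + D, fun n => (abs_add_le _ _).trans (add_le_add (hC n) (hD n))⟩

lemma Bd.mul {f g : ℕ → ℝ} (hf : Bd f) (hg : Bd g) : Bd fun n => f n * g n := by
  obtain ⟨C, hC⟩ := hf
  obtain ⟨D, hD⟩ := hg
  refine ⟨C * D, fun n => ?_⟩
  rw [abs_mul]
  exact mul_le_mul (hC n) (hD n) (abs_nonneg _) ((abs_nonneg _).trans (hC n))

lemma Bd.const (c : ℝ) : Bd fun _ => c := ⟨|c|, fun _ => le_rfl⟩

lemma Bd.smul {f : ℕ → ℝ} (c : ℝ) (hf : Bd f) : Bd fun n => c * f n := (Bd.const c).mul hf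

lemma Bd.sub {f g : ℕ → ℝ} (hf : Bd f) (hg : Bd g) : Bd fun n => f n - g n := by
  have := hf.add (hg.smul (-1))
  refine (by convert this using 2; ring : Bd fun n => f n - g n)

lemma Bd.of_le {f : ℕ → ℝ} {C : ℝ} (h : ∀ n, |f n| ≤ C) : Bd f := ⟨C, h⟩

lemma Bd.sum {ι : Type*} (s : Finset ι) {f : ι → ℕ → ℝ} (hf : ∀ i ∈ s, Bd (f i)) :
    Bd fun n => ∑ i ∈ s, f i n := by
  classical
  induction s using Finset.induction_on with
  | empty => simpa using Bd.const 0
  | insert a s ha ih =>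
    simp only [Finset.sum_insert ha]
    exact (hf a (Finset.mem_insert_self _ _)).add (ih fun i hi => hf i (Finset.mem_insert_of_mem hi))

/-- the bounded continuous function of a bounded sequence -/
def toB (h : ℕ → ℝ) (hb : Bd h) : ℕ →ᵇ ℝ :=
  BoundedContinuousFunction.ofNormedAddCommGroupDiscrete h hb.choose fun n => by
    rw [Real.norm_eq_abs]; exact hb.choose_spec n

lemma toB_apply (h : ℕ → ℝ) (hb : Bd h) (n : ℕ) : toB h hb n = h n := rfl

/-- the chosen Banach limit -/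
def BL : (ℕ →ᵇ ℝ) →L[ℝ] ℝ := Helper139.Tw4.exists_banach_limit.choose

lemma BL_nonneg (f : ℕ →ᵇ ℝ) (h : ∀ n, 0 ≤ f n) : 0 ≤ BL f :=
  Helper139.Tw4.exists_banach_limit.choose_spec.1 f h

lemma BL_one : BL (BoundedContinuousFunction.const ℕ (1 : ℝ)) = 1 :=
  Helper139.Tw4.exists_banach_limit.choose_spec.2.1

lemma BL_shift (f g : ℕ →ᵇ ℝ) (h : ∀ n, g n = f (n + 1)) : BL g = BL f :=
  Helper139.Tw4.exists_banach_limit.choose_spec.2.2.1 f g h

open Classical in
/-- the mean of a bounded sequence -/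
def Lam (h : ℕ → ℝ) : ℝ := if hb : Bd h then BL (toB h hb) else 0

lemma Lam_eq {h : ℕ → ℝ} (hb : Bd h) : Lam h = BL (toB h hb) := dif_pos hb

lemma Lam_add {f g : ℕ → ℝ} (hf : Bd f) (hg : Bd g) :
    Lam (fun n => f n + g n) = Lam f + Lam g := by
  rw [Lam_eq hf, Lam_eq hg, Lam_eq (hf.add hg), ← map_add]
  congr 1

lemma Lam_smul {f : ℕ → ℝ} (c : ℝ) (hf : Bd f) : Lam (fun n => c * f n) = c * Lam f := by
  rw [Lam_eq hf, Lam_eq (hf.smul c), ← smul_eq_mul, ← map_smul]
  congr 1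

lemma Lam_sub {f g : ℕ → ℝ} (hf : Bd f) (hg : Bd g) :
    Lam (fun n => f n - g n) = Lam f - Lam g := by
  rw [Lam_eq hf, Lam_eq hg, Lam_eq (hf.sub hg), ← map_sub]
  congr 1

lemma Lam_sum {ι : Type*} (s : Finset ι) {f : ι → ℕ → ℝ} (hf : ∀ i ∈ s, Bd (f i)) :
    Lam (fun n => ∑ i ∈ s, f i n) = ∑ i ∈ s, Lam (f i) := by
  classical
  induction s using Finset.induction_on with
  | empty =>
    simp only [Finset.sum_empty]
    have := Lam_smul 0 (Bd.const 0)
    simpa using this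
  | insert a s ha ih =>
    simp only [Finset.sum_insert ha]
    rw [Lam_add (hf a (Finset.mem_insert_self _ _))
      (Bd.sum s fun i hi => hf i (Finset.mem_insert_of_mem hi)),
      ih fun i hi => hf i (Finset.mem_insert_of_mem hi)]

lemma Lam_const (c : ℝ) : Lam (fun _ => c) = c := by
  rw [Lam_eq (Bd.const c)]
  have : toB (fun _ => c) (Bd.const c) = c • BoundedContinuousFunction.const ℕ (1 : ℝ) := by
    ext n
    simp [toB_apply]
  rw [this, map_smul, BL_one, smul_eq_mul, mul_one]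

lemma Lam_zero : Lam (fun _ => 0) = 0 := Lam_const 0

lemma Lam_nonneg {f : ℕ → ℝ} (h : ∀ n, 0 ≤ f n) : 0 ≤ Lam f := by
  unfold Lam
  split_ifs with hb
  · exact BL_nonneg _ h
  · exact le_rfl

lemma Lam_mono {f g : ℕ → ℝ} (hf : Bd f) (hg : Bd g) (h : ∀ n, f n ≤ g n) : Lam f ≤ Lam g := by
  have h1 := Lam_nonneg (f := fun n => g n - f n) fun n => sub_nonneg.2 (h n)
  rw [Lam_sub hg hf] at h1
  linarith

lemma Lam_abs_le {f : ℕ → ℝ} {C : ℝ} (h : ∀ n, |f n| ≤ C) : |Lam f| ≤ C := by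
  have hf : Bd f := ⟨C, h⟩
  rw [abs_le]
  constructor
  · have := Lam_mono (Bd.const (-C)) hf fun n => (abs_le.1 (h n)).1
    rwa [Lam_const] at this
  · have := Lam_mono hf (Bd.const C) fun n => (abs_le.1 (h n)).2
    rwa [Lam_const] at this

lemma Lam_shift {f : ℕ → ℝ} (hf : Bd f) (k : ℕ) : Lam (fun n => f (n + k)) = Lam f := by
  induction k with
  | zero => rfl
  | succ k ih =>
    have hb : ∀ j, Bd fun n => f (n + j) := fun j => by
      obtain ⟨C, hC⟩ := hf
      exact ⟨C, fun n => hC _⟩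
    rw [← ih, Lam_eq (hb (k + 1)), Lam_eq (hb k)]
    refine BL_shift _ _ fun n => ?_
    rw [toB_apply, toB_apply]
    congr 1
    omega

/-- Cauchy-Schwarz -/
lemma Lam_cs {f g : ℕ → ℝ} (hf : Bd f) (hg : Bd g) :
    (Lam fun n => f n * g n) ^ 2 ≤ (Lam fun n => f n * f n) * Lam fun n => g n * g n := by
  have key : ∀ t : ℝ, 0 ≤ (Lam fun n => g n * g n) * (t * t) + 2 * (Lam fun n => f n * g n) * t
      + Lam fun n => f n * f n := by
    intro t
    have h1 := Lam_nonneg (f := fun n => (f n + t * g n) * (f n + t * g n))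
      fun n => mul_self_nonneg _
    have e : (fun n => (f n + t * g n) * (f n + t * g n)) =
        fun n => (f n * f n + (2 * t) * (f n * g n)) + (t * t) * (g n * g n) := by
      funext n; ring
    rw [e, Lam_add ((hf.mul hf).add ((hf.mul hg).smul _)) ((hg.mul hg).smul _),
      Lam_add (hf.mul hf) ((hf.mul hg).smul _), Lam_smul _ (hf.mul hg),
      Lam_smul _ (hg.mul hg)] at h1
    linarith
  have := discrim_le_zero key
  unfold discrim at this
  nlinarith

/-- `h` depends on the first `c` binary digits only -/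
def Per (c : ℕ) (h : ℕ → ℝ) : Prop := ∀ n, h (n + 2 ^ c) = h n

lemma Per.mul {c : ℕ} {f g : ℕ → ℝ} (hf : Per c f) (hg : Per c g) :
    Per c fun n => f n * g n := fun n => by simp only [hf n, hg n]

lemma Per.add {c : ℕ} {f g : ℕ → ℝ} (hf : Per c f) (hg : Per c g) :
    Per c fun n => f n + g n := fun n => by simp only [hf n, hg n]

lemma Per.sub {c : ℕ} {f g : ℕ → ℝ} (hf : Per c f) (hg : Per c g) :
    Per c fun n => f n - g n := fun n => by simp only [hf n, hg n]

lemma Per.smul {c : ℕ} {f : ℕ → ℝ} (a : ℝ) (hf : Per c f) :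
    Per c fun n => a * f n := fun n => by simp only [hf n]

lemma Per.mono {c d : ℕ} (hcd : c ≤ d) {f : ℕ → ℝ} (hf : Per c f) : Per d f := by
  induction d, hcd using Nat.le_induction with
  | base => exact hf
  | succ d _ ih =>
    intro n
    rw [show n + 2 ^ (d + 1) = (n + 2 ^ d) + 2 ^ d by ring, ih, ih]

/-- the sign of the `c`-th binary digit -/
def rr (c n : ℕ) : ℝ := if n.testBit c then 1 else -1

lemma rr_flip (c n : ℕ) : rr c (n + 2 ^ c) = - rr c n := by
  unfold rr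
  rw [Nat.add_comm, Nat.testBit_two_pow_add_eq]
  cases n.testBit c <;> simp

lemma testBit_add {i c : ℕ} (h : i < c) (n : ℕ) : (n + 2 ^ c).testBit i = n.testBit i := by
  rw [Nat.add_comm, Nat.testBit_two_pow_add_gt h]

lemma rr_per {i c : ℕ} (h : i < c) : Per c (rr i) := fun n => by
  unfold rr
  rw [testBit_add h]

lemma abs_rr (c n : ℕ) : |rr c n| = 1 := by
  unfold rr
  split_ifs <;> simp

lemma Bd_rr (c : ℕ) : Bd (rr c) := ⟨1, fun n => (abs_rr c n).le⟩

lemma Lam_orth {c : ℕ} {h : ℕ → ℝ} (hb : Bd h) (hp : Per c h) :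
    Lam (fun n => h n * rr c n) = 0 := by
  have h1 := Lam_shift (hb.mul (Bd_rr c)) (2 ^ c)
  have h2 : (fun n => h (n + 2 ^ c) * rr c (n + 2 ^ c)) = fun n => (-1) * (h n * rr c n) := by
    funext n
    rw [hp, rr_flip]
    ring
  rw [h2, Lam_smul _ (hb.mul (Bd_rr c))] at h1
  linarith

end

end Pool.Agent.W688.CBX
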