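import Mathlib
import Pool.Agent.W688.CBX.Mean

/-!
The space `X` of bounded functions on signed words with the averaging condition and the
uniform convergence of the means along the paths.
-/

set_option autoImplicit false
open Filter Topology
open scoped BoundedContinuousFunction ENNReal

namespace Pool.Agent.W688.CBX

noncomputable section

/-- signed words -/
abbrev W : Type := List (Option Bool)

/-- bounded functions on words -/
abbrev LI : Type := lp (fun _ : W => ℝ) ⊤

lemma LI_le (x : LI) (l : W) : |x l| ≤ ‖x‖ := by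
  have := lp.norm_apply_le_norm ENNReal.top_ne_zero x l
  rwa [Real.norm_eq_abs] at this

/-- the averaging condition -/
def Xsub : Submodule ℝ LI where
  carrier := {x | (∀ l, x (none :: l) = x l) ∧ ∀ l, x (some true :: l) + x (some false :: l) = 2 * x l}
  add_mem' := by
    rintro x y ⟨h1, h2⟩ ⟨h3, h4⟩
    refine ⟨fun l => ?_, fun l => ?_⟩
    · simp only [lp.coeFn_add, Pi.add_apply, h1, h3]
    · simp only [lp.coeFn_add, Pi.add_apply]
      linarith [h2 l, h4 l]
  zero_mem' := by
    refine ⟨fun l => ?_, fun l => ?_⟩ <;> simp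
  smul_mem' := by
    rintro c x ⟨h1, h2⟩
    refine ⟨fun l => ?_, fun l => ?_⟩
    · simp only [lp.coeFn_smul, Pi.smul_apply, h1]
    · simp only [lp.coeFn_smul, Pi.smul_apply, smul_eq_mul]
      linear_combination c * h2 l

lemma mem_Xsub {x : LI} : x ∈ Xsub ↔
    (∀ l, x (none :: l) = x l) ∧ ∀ l, x (some true :: l) + x (some false :: l) = 2 * x l := Iff.rfl

lemma continuous_ev (l : W) : Continuous fun x : LI => x l :=
  (lp.evalCLM ℝ (fun _ : W => ℝ) ⊤ l).continuous

lemma isClosed_Xsub : IsClosed (Xsub : Set LI) := by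
  have : (Xsub : Set LI) = (⋂ l : W, {x : LI | x (none :: l) = x l}) ∩
      ⋂ l : W, {x : LI | x (some true :: l) + x (some false :: l) = 2 * x l} := by
    ext x
    simp only [SetLike.mem_coe, mem_Xsub, Set.mem_inter_iff, Set.mem_iInter, Set.mem_ofPred_eq]
  rw [this]
  refine IsClosed.inter (isClosed_iInter fun l => ?_) (isClosed_iInter fun l => ?_)
  · exact isClosed_eq (continuous_ev _) (continuous_ev _)
  · exact isClosed_eq ((continuous_ev _).add (continuous_ev _)) ((continuous_ev _).const_mul 2)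

/-- the Banach space of the counterexample -/
abbrev X : Type := Xsub

instance : CompleteSpace X := isClosed_Xsub.completeSpace_coe

lemma X_le (x : X) (l : W) : |(x : LI) l| ≤ ‖x‖ := LI_le x.1 l

/-- the word read along `A` with the signs given by the binary digits of `n` -/
def gam (A : ℕ → Bool) (n : ℕ) : ℕ → W
  | 0 => []
  | m + 1 => (if A m then some (n.testBit m) else none) :: gam A n m

lemma gam_length (A : ℕ → Bool) (n m : ℕ) : (gam A n m).length = m := by
  induction m with
  | zero => rfl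
  | succ m ih => simp [gam, ih]

lemma gam_add (A : ℕ → Bool) (n : ℕ) {m c : ℕ} (h : m ≤ c) : gam A (n + 2 ^ c) m = gam A n m := by
  induction m with
  | zero => rfl
  | succ m ih =>
    simp only [gam]
    rw [ih (by omega), testBit_add (by omega)]

lemma gam_congr {A B : ℕ → Bool} (n m : ℕ) (h : ∀ i < m, A i = B i) : gam A n m = gam B n m := by
  induction m with
  | zero => rfl
  | succ m ih =>
    simp only [gam]
    rw [ih fun i hi => h i (by omega), h m (by omega)]

/-- value of `x` along the path -/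
def DD (x : X) (A : ℕ → Bool) (m n : ℕ) : ℝ := (x : LI) (gam A n m)

lemma DD_le (x : X) (A : ℕ → Bool) (m n : ℕ) : |DD x A m n| ≤ ‖x‖ := X_le x _

lemma Bd_DD (x : X) (A : ℕ → Bool) (m : ℕ) : Bd (DD x A m) := ⟨‖x‖, DD_le x A m⟩

lemma Per_DD (x : X) (A : ℕ → Bool) (m : ℕ) : Per m (DD x A m) := fun n => by
  unfold DD; rw [gam_add A n le_rfl]

/-- half difference of the two children -/
def zz (x : X) (l : W) : ℝ := ((x : LI) (some true :: l) - (x : LI) (some false :: l)) / 2

lemma DD_succ (x : X) (A : ℕ → Bool) (m n : ℕ) :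
    DD x A (m + 1) n = DD x A m n + (if A m then zz x (gam A n m) else 0) * rr m n := by
  unfold DD zz rr
  simp only [gam]
  have h1 := x.2.1 (gam A n m)
  have h2 := x.2.2 (gam A n m)
  cases hA : A m
  · simpa using h1
  · cases n.testBit m
    · simp only [if_true, Bool.false_eq_true, if_false]
      linarith
    · simp only [if_true]
      linarith

lemma zz_le (x : X) (l : W) : |zz x l| ≤ ‖x‖ := by
  unfold zz
  have h1 := abs_le.1 (X_le x (some true :: l))
  have h2 := abs_le.1 (X_le x (some false :: l))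
  rw [abs_le]
  constructor <;> linarith [h1.1, h1.2, h2.1, h2.2]

/-- the increments are orthogonal to the functions of the earlier digits -/
lemma Lam_incr (x : X) (A : ℕ → Bool) {h : ℕ → ℝ} {m m' : ℕ} (hb : Bd h) (hp : Per m h)
    (hm : m ≤ m') : Lam (fun n => h n * (DD x A m' n - DD x A m n)) = 0 := by
  induction m', hm using Nat.le_induction with
  | base =>
    simp only [sub_self, mul_zero]
    exact Lam_zero
  | succ m' hmm ih =>
    have e : (fun n => h n * (DD x A (m' + 1) n - DD x A m n)) = fun n =>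
        h n * (DD x A m' n - DD x A m n) +
          (h n * (if A m' then zz x (gam A n m') else 0)) * rr m' n := by
      funext n
      rw [DD_succ]
      ring
    have hz : Bd fun n => (if A m' then zz x (gam A n m') else 0) := by
      refine ⟨‖x‖, fun n => ?_⟩
      split_ifs
      · exact zz_le x _
      · simp
    have hzp : Per m' fun n => (if A m' then zz x (gam A n m') else 0) := by
      intro n
      simp only
      rw [gam_add A n le_rfl]
    rw [e, Lam_add (hb.mul ((Bd_DD _ _ _).sub (Bd_DD _ _ _))) ((hb.mul hz).mul (Bd_rr _)), ih,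
      Lam_orth (hb.mul hz) ((hp.mono hmm).mul hzp), add_zero]

/-- the block sums -/
def SS (x : X) (A : ℕ → ℕ → Bool) (N : ℕ → ℕ) (s : ℕ → ℝ) : ℕ → ℕ → ℝ
  | 0 => fun _ => 0
  | k + 1 => fun n => SS x A N s k n + s k * (DD x (A k) (N (k + 1)) n - DD x (A k) (N k) n)

lemma Bd_SS (x : X) (A : ℕ → ℕ → Bool) (N : ℕ → ℕ) (s : ℕ → ℝ) (k : ℕ) : Bd (SS x A N s k) := by
  induction k with
  | zero => exact Bd.const 0
  | succ k ih => exact ih.add (((Bd_DD _ _ _).sub (Bd_DD _ _ _)).smul _)

lemma Per_SS (x : X) (A : ℕ → ℕ → Bool) {N : ℕ → ℕ} (hN : Monotone N) (s : ℕ → ℝ) (k : ℕ) :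
    Per (N k) (SS x A N s k) := by
  induction k with
  | zero => exact fun _ => rfl
  | succ k ih =>
    have hk : N k ≤ N (k + 1) := hN (Nat.le_succ k)
    exact (ih.mono hk).add (((Per_DD _ _ _).sub ((Per_DD _ _ _).mono hk)).smul _)

lemma Lam_SS (x : X) (A : ℕ → ℕ → Bool) {N : ℕ → ℕ} (hN : Monotone N) {s : ℕ → ℝ}
    (hs : ∀ k, |s k| ≤ 1) (k : ℕ) :
    Lam (fun n => SS x A N s k n * SS x A N s k n) ≤ k * (4 * ‖x‖ ^ 2) := by
  induction k with
  | zero =>
    simp only [SS, mul_zero, Nat.cast_zero, zero_mul]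
    exact Lam_zero.le
  | succ k ih =>
    have hk : N k ≤ N (k + 1) := hN (Nat.le_succ k)
    have hD := (Bd_DD x (A k) (N (k + 1))).sub (Bd_DD x (A k) (N k))
    have hS := Bd_SS x A N s k
    have e : (fun n => SS x A N s (k + 1) n * SS x A N s (k + 1) n) = fun n =>
        (SS x A N s k n * SS x A N s k n +
          (2 * s k) * (SS x A N s k n * (DD x (A k) (N (k + 1)) n - DD x (A k) (N k) n))) +
        (s k * (DD x (A k) (N (k + 1)) n - DD x (A k) (N k) n)) *
          (s k * (DD x (A k) (N (k + 1)) n - DD x (A k) (N k) n)) := by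
      funext n
      simp only [SS]
      ring
    rw [e, Lam_add ((hS.mul hS).add ((hS.mul hD).smul _)) ((hD.smul _).mul (hD.smul _)),
      Lam_add (hS.mul hS) ((hS.mul hD).smul _), Lam_smul _ (hS.mul hD),
      Lam_incr x (A k) hS (Per_SS x A hN s k) hk]
    have h3 : Lam (fun n => (s k * (DD x (A k) (N (k + 1)) n - DD x (A k) (N k) n)) *
          (s k * (DD x (A k) (N (k + 1)) n - DD x (A k) (N k) n))) ≤ 4 * ‖x‖ ^ 2 := by
      have hle : ∀ n, |(s k * (DD x (A k) (N (k + 1)) n - DD x (A k) (N k) n)) *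
          (s k * (DD x (A k) (N (k + 1)) n - DD x (A k) (N k) n))| ≤ 4 * ‖x‖ ^ 2 := by
        intro n
        have h4 : |s k * (DD x (A k) (N (k + 1)) n - DD x (A k) (N k) n)| ≤ 2 * ‖x‖ := by
          rw [abs_mul]
          have h5 : |DD x (A k) (N (k + 1)) n - DD x (A k) (N k) n| ≤ 2 * ‖x‖ := by
            refine (abs_sub _ _).trans ?_
            linarith [DD_le x (A k) (N (k + 1)) n, DD_le x (A k) (N k) n]
          calc |s k| * |DD x (A k) (N (k + 1)) n - DD x (A k) (N k) n| ≤ 1 * (2 * ‖x‖) :=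
                mul_le_mul (hs k) h5 (abs_nonneg _) zero_le_one
            _ = 2 * ‖x‖ := one_mul _
        rw [abs_mul]
        calc _ ≤ (2 * ‖x‖) * (2 * ‖x‖) := mul_le_mul h4 h4 (abs_nonneg _) (by positivity)
          _ = 4 * ‖x‖ ^ 2 := by ring
      exact (le_abs_self _).trans (Lam_abs_le hle)
    push_cast
    linarith

/-- uniform convergence of the means -/
theorem unif (x : X) {g : ℕ → ℝ} (hg : Bd g) {ε : ℝ} (hε : 0 < ε) :
    ∃ N : ℕ, ∀ A : ℕ → Bool, ∀ m ≥ N,
      |Lam (fun n => g n * (DD x A m n - DD x A N n))| ≤ ε := by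
  by_contra hcon
  push Not at hcon
  choose A m hm hgt using hcon
  let N : ℕ → ℕ := fun k => m^[k] 0
  have hN1 : ∀ k, N (k + 1) = m (N k) := fun k => by
    simp only [N, Function.iterate_succ', Function.comp]
  have hN : Monotone N := monotone_nat_of_le_succ fun k => by rw [hN1]; exact hm _
  let c : ℕ → ℝ := fun k => Lam (fun n => g n * (DD x (A (N k)) (N (k + 1)) n - DD x (A (N k)) (N k) n))
  have hc : ∀ k, ε < |c k| := fun k => by
    have := hgt (N k)
    rw [← hN1] at this
    exact this
  let s : ℕ → ℝ := fun k => if 0 ≤ c k then 1 else -1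
  have hs : ∀ k, |s k| ≤ 1 := fun k => by
    simp only [s]; split_ifs <;> simp
  have hsc : ∀ k, s k * c k = |c k| := fun k => by
    simp only [s]
    split_ifs with h
    · rw [one_mul, abs_of_nonneg h]
    · rw [abs_of_neg (not_le.1 h)]; ring
  have hL : ∀ k : ℕ, k * ε ≤ Lam (fun n => g n * SS x (fun k => A (N k)) N s k n) := by
    intro k
    induction k with
    | zero =>
      simp only [SS, mul_zero, Nat.cast_zero, zero_mul]
      exact Lam_zero.ge
    | succ k ih =>
      have e : (fun n => g n * SS x (fun k => A (N k)) N s (k + 1) n) = fun n =>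
          g n * SS x (fun k => A (N k)) N s k n +
          s k * (g n * (DD x (A (N k)) (N (k + 1)) n - DD x (A (N k)) (N k) n)) := by
        funext n
        simp only [SS]
        ring
      have hD := (Bd_DD x (A (N k)) (N (k + 1))).sub (Bd_DD x (A (N k)) (N k))
      rw [e, Lam_add (hg.mul (Bd_SS _ _ _ _ _)) ((hg.mul hD).smul _), Lam_smul _ (hg.mul hD)]
      have h1 : s k * Lam (fun n => g n * (DD x (A (N k)) (N (k + 1)) n - DD x (A (N k)) (N k) n)) =
        |c k| := hsc k
      rw [h1]
      push_cast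
      linarith [hc k]
  obtain ⟨C, hC⟩ := hg
  have hg : Bd g := ⟨C, hC⟩
  have hgg : 0 ≤ Lam (fun n => g n * g n) := Lam_nonneg fun n => mul_self_nonneg _
  obtain ⟨k, hk⟩ := exists_nat_gt ((Lam (fun n => g n * g n)) * (4 * ‖x‖ ^ 2) / ε ^ 2)
  rw [div_lt_iff₀ (by positivity)] at hk
  have h1 := Lam_cs hg (Bd_SS x (fun k => A (N k)) N s k)
  have h2 := Lam_SS x (fun k => A (N k)) hN hs k
  have h3 := hL k
  have hk0 : (0 : ℝ) < k := by
    rcases Nat.eq_zero_or_pos k with h | h
    · subst h
      have : 0 ≤ (Lam (fun n => g n * g n)) * (4 * ‖x‖ ^ 2) := by positivity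
      rw [Nat.cast_zero, zero_mul] at hk
      linarith
    · exact_mod_cast h
  have h4 : (k * ε) ^ 2 ≤ (Lam fun n => g n * g n) * (k * (4 * ‖x‖ ^ 2)) := by
    calc (k * ε) ^ 2 ≤ (Lam (fun n => g n * SS x (fun k => A (N k)) N s k n)) ^ 2 :=
          pow_le_pow_left₀ (by positivity) h3 2
      _ ≤ _ := h1
      _ ≤ _ := mul_le_mul_of_nonneg_left h2 hgg
  have h5 : k * (k * ε ^ 2) ≤ k * ((Lam fun n => g n * g n) * (4 * ‖x‖ ^ 2)) := by
    nlinarith [h4]
  have h6 := le_of_mul_le_mul_left h5 hk0
  linarith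

end

end Pool.Agent.W688.CBX
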