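import Mathlib
import Pool.Agent.W688.CBX.Space
import Pool.Agent.Helper234.LInf.Core

/-!
`X` has no complemented copy of `c₀`: an operator from `c₀` to `X` extends to `ℓ_∞`, coordinatewise.
-/

set_option autoImplicit false
open Filter Topology
open scoped BoundedContinuousFunction ENNReal ZeroAtInfty

namespace Pool.Agent.W688.CBX

noncomputable section

/-- bounded sequences -/
abbrev L8 : Type := lp (fun _ : ℕ => ℝ) ⊤

/-- finitely supported element of `c₀` -/
def c0fin (s : Finset ℕ) (a : ℕ → ℝ) : C₀(ℕ, ℝ) :=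
  ⟨⟨fun n => if n ∈ s then a n else 0, continuous_of_discreteTopology⟩, by
    rw [Filter.cocompact_eq_cofinite]
    refine tendsto_const_nhds.congr' ?_
    rw [Filter.EventuallyEq, Filter.eventually_cofinite]
    refine s.finite_toSet.subset ?_
    intro m hm
    by_contra hne
    exact hm (by simp [show m ∉ s from hne])⟩

lemma c0fin_apply (s : Finset ℕ) (a : ℕ → ℝ) (n : ℕ) : c0fin s a n = if n ∈ s then a n else 0 := rfl

lemma c0_norm_le {f : C₀(ℕ, ℝ)} {C : ℝ} (hC : 0 ≤ C) (h : ∀ n, |f n| ≤ C) : ‖f‖ ≤ C := by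
  rw [← ZeroAtInftyContinuousMap.norm_toBCF_eq_norm]
  rw [BoundedContinuousFunction.norm_le hC]
  exact fun n => h n

/-- unit vectors -/
def e0 (n : ℕ) : C₀(ℕ, ℝ) := c0fin {n} fun _ => 1

lemma c0fin_eq (s : Finset ℕ) (a : ℕ → ℝ) : c0fin s a = ∑ i ∈ s, a i • e0 i := by
  classical
  ext n
  have h1 : (∑ i ∈ s, a i • e0 i) n = ∑ i ∈ s, a i * e0 i n := by
    induction s using Finset.induction_on with
    | empty => simp
    | insert b s hb ih =>
      rw [Finset.sum_insert hb, Finset.sum_insert hb, ZeroAtInftyContinuousMap.add_apply, ih]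
      rfl
  rw [h1, c0fin_apply]
  have h2 : ∀ i, e0 i n = if i = n then 1 else 0 := by
    intro i
    unfold e0
    rw [c0fin_apply]
    by_cases h : n = i
    · subst h; simp
    · have h' : i ≠ n := fun h2 => h h2.symm
      simp [h, h']
  simp only [h2]
  simp

lemma sum_abs_le (T : C₀(ℕ, ℝ) →L[ℝ] X) (l : W) (s : Finset ℕ) :
    ∑ i ∈ s, |(T (e0 i) : LI) l| ≤ ‖T‖ := by
  classical
  let σ : ℕ → ℝ := fun i => if 0 ≤ (T (e0 i) : LI) l then 1 else -1
  have h1 : (T (c0fin s σ) : LI) l = ∑ i ∈ s, |(T (e0 i) : LI) l| := by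
    rw [c0fin_eq, map_sum]
    have : ((∑ i ∈ s, T (σ i • e0 i) : X) : LI) l = ∑ i ∈ s, (T (σ i • e0 i) : LI) l := by
      have h0 := map_sum ((lp.evalCLM ℝ (fun _ : W => ℝ) ⊤ l).toLinearMap ∘ₗ Xsub.subtype)
        (fun i => T (σ i • e0 i)) s
      exact h0
    rw [this]
    refine Finset.sum_congr rfl fun i _ => ?_
    rw [map_smul, Submodule.coe_smul, lp.coeFn_smul, Pi.smul_apply, smul_eq_mul]
    simp only [σ]
    split_ifs with h
    · rw [one_mul, abs_of_nonneg h]
    · rw [abs_of_neg (not_le.1 h)]; ring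
  rw [← h1]
  refine (le_abs_self _).trans ((X_le _ _).trans ((T.le_opNorm _).trans ?_))
  have h2 : ‖c0fin s σ‖ ≤ 1 := by
    refine c0_norm_le zero_le_one fun n => ?_
    rw [c0fin_apply]
    simp only [σ]
    split_ifs <;> simp
  calc ‖T‖ * ‖c0fin s σ‖ ≤ ‖T‖ * 1 := by gcongr
    _ = ‖T‖ := mul_one _

lemma summ (T : C₀(ℕ, ℝ) →L[ℝ] X) (l : W) : Summable fun i => |(T (e0 i) : LI) l| :=
  summable_of_sum_le (fun _ => abs_nonneg _) (sum_abs_le T l)

lemma L8_le (a : L8) (n : ℕ) : |a n| ≤ ‖a‖ := by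
  have := lp.norm_apply_le_norm ENNReal.top_ne_zero a n
  rwa [Real.norm_eq_abs] at this

lemma summ' (T : C₀(ℕ, ℝ) →L[ℝ] X) (l : W) (a : L8) :
    Summable fun i => a i * (T (e0 i) : LI) l := by
  refine Summable.of_norm_bounded ((summ T l).mul_left ‖a‖) fun i => ?_
  rw [Real.norm_eq_abs, abs_mul]
  exact mul_le_mul_of_nonneg_right (L8_le a i) (abs_nonneg _)

lemma ext_le (T : C₀(ℕ, ℝ) →L[ℝ] X) (l : W) (a : L8) :
    |∑' i, a i * (T (e0 i) : LI) l| ≤ ‖T‖ * ‖a‖ := by
  have h1 : ‖∑' i, a i * (T (e0 i) : LI) l‖ ≤ ∑' i, ‖a i * (T (e0 i) : LI) l‖ :=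
    norm_tsum_le_tsum_norm (summ' T l a).norm
  rw [Real.norm_eq_abs] at h1
  refine h1.trans ?_
  have h2 : ∑' i, ‖a i * (T (e0 i) : LI) l‖ ≤ ∑' i, ‖a‖ * |(T (e0 i) : LI) l| := by
    refine (summ' T l a).norm.tsum_le_tsum (fun i => ?_) ((summ T l).mul_left _)
    rw [Real.norm_eq_abs, abs_mul]
    exact mul_le_mul_of_nonneg_right (L8_le a i) (abs_nonneg _)
  refine h2.trans ?_
  rw [tsum_mul_left, mul_comm]
  refine mul_le_mul_of_nonneg_right ?_ (norm_nonneg _)
  exact (summ T l).tsum_le_of_sum_le (sum_abs_le T l)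

/-- the extension of `T` to bounded sequences -/
def Te (T : C₀(ℕ, ℝ) →L[ℝ] X) : L8 →L[ℝ] X :=
  LinearMap.mkContinuous
    { toFun := fun a => ⟨⟨fun l => ∑' i, a i * (T (e0 i) : LI) l, by
        apply memℓp_infty
        refine ⟨‖T‖ * ‖a‖, ?_⟩
        rintro _ ⟨l, rfl⟩
        show ‖∑' i, a i * (T (e0 i) : LI) l‖ ≤ ‖T‖ * ‖a‖
        rw [Real.norm_eq_abs]
        exact ext_le T l a⟩, by
        rw [mem_Xsub]
        refine ⟨fun l => ?_, fun l => ?_⟩
        · show (∑' i, a i * (T (e0 i) : LI) (none :: l)) = ∑' i, a i * (T (e0 i) : LI) l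
          congr 1
          funext i
          rw [(T (e0 i)).2.1 l]
        · show (∑' i, a i * (T (e0 i) : LI) (some true :: l)) +
            (∑' i, a i * (T (e0 i) : LI) (some false :: l)) =
            2 * ∑' i, a i * (T (e0 i) : LI) l
          rw [← (summ' T _ a).tsum_add (summ' T _ a), ← tsum_mul_left]
          congr 1
          funext i
          have := (T (e0 i)).2.2 l
          linear_combination a i * this⟩
      map_add' := fun a b => by
        refine Subtype.ext (lp.ext (funext fun l => ?_))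
        show (∑' i, (a + b) i * (T (e0 i) : LI) l) =
          (∑' i, a i * (T (e0 i) : LI) l) + ∑' i, b i * (T (e0 i) : LI) l
        rw [← (summ' T _ a).tsum_add (summ' T _ b)]
        congr 1
        funext i
        rw [lp.coeFn_add, Pi.add_apply]
        ring
      map_smul' := fun c a => by
        refine Subtype.ext (lp.ext (funext fun l => ?_))
        show (∑' i, (c • a) i * (T (e0 i) : LI) l) = c * ∑' i, a i * (T (e0 i) : LI) l
        rw [← tsum_mul_left]
        congr 1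
        funext i
        rw [lp.coeFn_smul, Pi.smul_apply, smul_eq_mul]
        ring } ‖T‖ (fun a => by
      show ‖(_ : LI)‖ ≤ _
      refine lp.norm_le_of_forall_le (by positivity) fun l => ?_
      rw [Real.norm_eq_abs]
      exact ext_le T l a)

lemma Te_apply (T : C₀(ℕ, ℝ) →L[ℝ] X) (a : L8) (l : W) :
    (Te T a : LI) l = ∑' i, a i * (T (e0 i) : LI) l := rfl

lemma Te_single (T : C₀(ℕ, ℝ) →L[ℝ] X) (n : ℕ) : Te T (lp.single ⊤ n (1 : ℝ)) = T (e0 n) := by
  classical
  refine Subtype.ext (lp.ext (funext fun l => ?_))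
  rw [Te_apply, tsum_eq_single n]
  · rw [lp.single_apply_self, one_mul]
  · intro i hi
    rw [lp.single_apply_ne _ _ _ hi, zero_mul]

/-- no complemented copy of `c₀` -/
theorem no_c0 (T : C₀(ℕ, ℝ) →L[ℝ] X) (P : X →L[ℝ] C₀(ℕ, ℝ))
    (h : P.comp T = ContinuousLinearMap.id ℝ _) : False := by
  classical
  let ev : ℕ → (C₀(ℕ, ℝ) →L[ℝ] ℝ) := fun i => LinearMap.mkContinuous
    { toFun := fun f => f i
      map_add' := fun _ _ => rfl
      map_smul' := fun _ _ => rfl } 1 (fun f => by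
        rw [one_mul]
        exact f.toBCF.norm_coe_le_norm i)
  have hev : ∀ i, ‖ev i‖ ≤ 1 := fun i => LinearMap.mkContinuous_norm_le _ zero_le_one _
  let lam : ℕ → (L8 →L[ℝ] ℝ) := fun i => (ev i).comp (P.comp (Te T))
  have h1 := Pool.Agent.Helper234.LInf.phillips_lemma ℝ lam (‖P.comp (Te T)‖) (fun i => by
    refine (ContinuousLinearMap.opNorm_comp_le _ _).trans ?_
    calc ‖ev i‖ * ‖P.comp (Te T)‖ ≤ 1 * ‖P.comp (Te T)‖ := by gcongr; exact hev i
      _ = _ := one_mul _) (fun y => by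
    have := zero_at_infty (P (Te T y))
    rw [Filter.cocompact_eq_cofinite, Nat.cofinite_eq_atTop] at this
    exact this)
  have h2 : ∀ i : ℕ, lam i (lp.single ⊤ i (1 : ℝ)) = 1 := by
    intro i
    show (P (Te T (lp.single ⊤ i (1 : ℝ)))) i = 1
    rw [Te_single]
    have := congrArg (fun L => L (e0 i)) h
    simp only [ContinuousLinearMap.comp_apply, ContinuousLinearMap.id_apply] at this
    rw [this]
    unfold e0
    rw [c0fin_apply]
    simp
  simp only [h2] at h1
  exact one_ne_zero (tendsto_nhds_unique tendsto_const_nhds h1)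

end

end Pool.Agent.W688.CBX
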