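import Mathlib
import Pool.Agent.W688.CBX.Space

/-!
The operator `P` from `C(β ℕ, X)` to `C(2 ^ ℕ)`.
-/

set_option autoImplicit false
open Filter Topology
open scoped BoundedContinuousFunction ENNReal

namespace Pool.Agent.W688.CBX

noncomputable section

/-- the Cantor space -/
abbrev K : Type := ℕ → Bool

/-- means along the paths -/
def phi (u : ℕ → X) (m : ℕ) (A : K) : ℝ := Lam fun n => DD (u n) A m n

lemma Bd_u {u : ℕ → X} {C : ℝ} (h : ∀ n, ‖u n‖ ≤ C) (A : K) (m : ℕ) :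
    Bd fun n => DD (u n) A m n := ⟨C, fun n => (DD_le _ _ _ _).trans (h n)⟩

lemma phi_le {u : ℕ → X} {C : ℝ} (h : ∀ n, ‖u n‖ ≤ C) (m : ℕ) (A : K) : |phi u m A| ≤ C :=
  Lam_abs_le fun n => (DD_le _ _ _ _).trans (h n)

lemma DD_add (x y : X) (A : K) (m n : ℕ) : DD (x + y) A m n = DD x A m n + DD y A m n := by
  simp only [DD, Submodule.coe_add, lp.coeFn_add, Pi.add_apply]

lemma DD_sub (x y : X) (A : K) (m n : ℕ) : DD (x - y) A m n = DD x A m n - DD y A m n := by
  simp only [DD, Submodule.coe_sub, lp.coeFn_sub, Pi.sub_apply]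

lemma DD_smul (c : ℝ) (x : X) (A : K) (m n : ℕ) : DD (c • x) A m n = c * DD x A m n := by
  simp only [DD, Submodule.coe_smul, lp.coeFn_smul, Pi.smul_apply, smul_eq_mul]

lemma phi_congr (u : ℕ → X) (m : ℕ) {A B : K} (h : ∀ i < m, A i = B i) : phi u m A = phi u m B := by
  unfold phi DD
  congr 1
  funext n
  rw [gam_congr n m h]

lemma phi_cont (u : ℕ → X) (m : ℕ) : Continuous (phi u m) := by
  have h1 : phi u m = (fun B : Fin m → Bool => phi u m fun i => if h : i < m then B ⟨i, h⟩ else false) ∘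
      fun (A : K) (i : Fin m) => A i := by
    funext A
    refine phi_congr u m fun i hi => ?_
    simp only [hi, dif_pos]
  rw [h1]
  exact continuous_of_discreteTopology.comp (continuous_pi fun i => continuous_apply _)

lemma phi_sub_le {u v : ℕ → X} {C : ℝ} (hu : ∃ C, ∀ n, ‖u n‖ ≤ C) (hv : ∃ C, ∀ n, ‖v n‖ ≤ C)
    (h : ∀ n, ‖u n - v n‖ ≤ C) (m : ℕ) (A : K) : |phi u m A - phi v m A| ≤ C := by
  obtain ⟨C1, h1⟩ := hu
  obtain ⟨C2, h2⟩ := hv
  unfold phi
  rw [← Lam_sub (Bd_u h1 A m) (Bd_u h2 A m)]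
  refine Lam_abs_le fun n => ?_
  rw [← DD_sub]
  exact (DD_le _ _ _ _).trans (h n)

/-- step functions -/
lemma phi_step {k : ℕ} (x : Fin k → X) (ι : ℕ → Fin k) {ε : ℝ} (hε : 0 < ε) :
    ∃ N : ℕ, ∀ A : K, ∀ m ≥ N, |phi (fun n => x (ι n)) m A - phi (fun n => x (ι n)) N A| ≤ ε := by
  classical
  have hk : (0 : ℝ) < 2 * ((k : ℝ) + 1) := by positivity
  have hg : ∀ i : Fin k, Bd fun n => if ι n = i then (1 : ℝ) else 0 := fun i =>
    ⟨1, fun n => by dsimp only; split_ifs <;> simp⟩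
  choose N hN using fun i : Fin k => unif (x i) (hg i) (div_pos hε hk)
  let M : ℕ := Finset.univ.sup N
  have hM : ∀ i, N i ≤ M := fun i => Finset.le_sup (Finset.mem_univ i)
  have hphi : ∀ (A : K) (m : ℕ), phi (fun n => x (ι n)) m A =
      ∑ i : Fin k, Lam (fun n => (if ι n = i then (1 : ℝ) else 0) * DD (x i) A m n) := by
    intro A m
    rw [← Lam_sum _ fun i _ => (hg i).mul (Bd_DD _ _ _)]
    unfold phi
    congr 1
    funext n
    simp
  refine ⟨M, fun A m hm => ?_⟩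
  rw [hphi, hphi, ← Finset.sum_sub_distrib]
  have hi : ∀ i : Fin k, |Lam (fun n => (if ι n = i then (1 : ℝ) else 0) * DD (x i) A m n) -
      Lam (fun n => (if ι n = i then (1 : ℝ) else 0) * DD (x i) A M n)| ≤
        2 * (ε / (2 * ((k : ℝ) + 1))) := by
    intro i
    have e : ∀ m, Lam (fun n => (if ι n = i then (1 : ℝ) else 0) *
        (DD (x i) A m n - DD (x i) A (N i) n)) =
        Lam (fun n => (if ι n = i then (1 : ℝ) else 0) * DD (x i) A m n) -
        Lam (fun n => (if ι n = i then (1 : ℝ) else 0) * DD (x i) A (N i) n) := by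
      intro m
      rw [← Lam_sub ((hg i).mul (Bd_DD _ _ _)) ((hg i).mul (Bd_DD _ _ _))]
      congr 1
      funext n
      ring
    have h1 := hN i A m ((hM i).trans hm)
    have h2 := hN i A M (hM i)
    rw [e] at h1 h2
    rw [abs_le] at *
    constructor <;> linarith [h1.1, h1.2, h2.1, h2.2]
  refine (Finset.abs_sum_le_sum_abs _ _).trans ((Finset.sum_le_sum fun i _ => hi i).trans ?_)
  rw [Finset.sum_const, Finset.card_univ, Fintype.card_fin, nsmul_eq_mul]
  have : (k : ℝ) * (2 * (ε / (2 * ((k : ℝ) + 1)))) = ε * (k / (k + 1)) := by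
    field_simp
  rw [this]
  have h3 : (k : ℝ) / (k + 1) ≤ 1 := by
    rw [div_le_one (by positivity)]; linarith
  nlinarith

/-- approximable by step functions -/
def TB (u : ℕ → X) : Prop :=
  ∀ ε : ℝ, 0 < ε → ∃ (k : ℕ) (x : Fin k → X) (ι : ℕ → Fin k), ∀ n, ‖u n - x (ι n)‖ ≤ ε

lemma phi_unif {u : ℕ → X} (hu : ∃ C, ∀ n, ‖u n‖ ≤ C) (ht : TB u) {ε : ℝ} (hε : 0 < ε) :
    ∃ N : ℕ, ∀ A : K, ∀ m ≥ N, |phi u m A - phi u N A| ≤ ε := by
  obtain ⟨k, x, ι, h⟩ := ht (ε / 3) (by positivity)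
  obtain ⟨N, hN⟩ := phi_step x ι (ε := ε / 3) (by positivity)
  have hv : ∃ C, ∀ n, ‖(fun n => x (ι n)) n‖ ≤ C := by
    obtain ⟨C, hC⟩ := hu
    refine ⟨C + ε / 3, fun n => ?_⟩
    have : x (ι n) = u n - (u n - x (ι n)) := by abel
    show ‖x (ι n)‖ ≤ _
    rw [this]
    exact (norm_sub_le _ _).trans (add_le_add (hC n) (h n))
  refine ⟨N, fun A m hm => ?_⟩
  have h1 := phi_sub_le hu hv h m A
  have h2 := phi_sub_le hu hv h N A
  have h3 := hN A m hm
  rw [abs_le] at *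
  constructor <;> linarith [h1.1, h1.2, h2.1, h2.2, h3.1, h3.2]

/-- restriction to `ℕ` -/
def rs (G : StoneCech ℕ →ᵇ X) (n : ℕ) : X := G (stoneCechUnit n)

lemma rs_le (G : StoneCech ℕ →ᵇ X) (n : ℕ) : ‖rs G n‖ ≤ ‖G‖ := G.norm_coe_le_norm _

lemma TB_rs (G : StoneCech ℕ →ᵇ X) : TB (rs G) := by
  intro ε hε
  have hc : IsCompact (Set.range G) := isCompact_range G.continuous
  obtain ⟨t, ht, hcov⟩ := hc.finite_cover_balls hε
  obtain ⟨htf, hcov⟩ := hcov
  have hmem : ∀ n, ∃ y ∈ t, ‖rs G n - y‖ ≤ ε := by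
    intro n
    have := hcov ⟨stoneCechUnit n, rfl⟩
    simp only [Set.mem_iUnion, exists_prop] at this
    obtain ⟨y, hy, hb⟩ := this
    refine ⟨y, hy, ?_⟩
    rw [Metric.mem_ball, dist_eq_norm] at hb
    exact hb.le
  choose y hy hle using hmem
  let e := htf.fintype
  let eq := Fintype.equivFin t
  refine ⟨Fintype.card t, fun i => (eq.symm i : X), fun n => eq ⟨y n, hy n⟩, fun n => ?_⟩
  simpa using hle n

/-- the approximating operators -/
def Pm (m : ℕ) : (StoneCech ℕ →ᵇ X) →L[ℝ] (K →ᵇ ℝ) :=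
  LinearMap.mkContinuous
    { toFun := fun G => BoundedContinuousFunction.mkOfCompact ⟨phi (rs G) m, phi_cont _ _⟩
      map_add' := fun G H => by
        ext A
        simp only [BoundedContinuousFunction.mkOfCompact_apply, ContinuousMap.coe_mk,
          BoundedContinuousFunction.coe_add, Pi.add_apply]
        unfold phi
        rw [← Lam_add (Bd_u (rs_le G) A m) (Bd_u (rs_le H) A m)]
        congr 1
      map_smul' := fun c G => by
        ext A
        simp only [BoundedContinuousFunction.mkOfCompact_apply, ContinuousMap.coe_mk,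
          BoundedContinuousFunction.coe_smul, RingHom.id_apply, smul_eq_mul]
        unfold phi
        rw [← Lam_smul c (Bd_u (rs_le G) A m)]
        congr 1 } 1 (fun G => by
      rw [one_mul, BoundedContinuousFunction.norm_le (norm_nonneg _)]
      intro A
      exact phi_le (rs_le G) m A)

lemma Pm_apply (m : ℕ) (G : StoneCech ℕ →ᵇ X) (A : K) : Pm m G A = phi (rs G) m A := rfl

lemma Pm_cauchy (G : StoneCech ℕ →ᵇ X) : CauchySeq fun m => Pm m G := by
  rw [Metric.cauchySeq_iff']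
  intro ε hε
  obtain ⟨N, hN⟩ := phi_unif (u := rs G) ⟨‖G‖, rs_le G⟩ (TB_rs G) (ε := ε / 2) (by positivity)
  refine ⟨N, fun m hm => ?_⟩
  rw [dist_eq_norm]
  refine lt_of_le_of_lt ?_ (half_lt_self hε)
  rw [BoundedContinuousFunction.norm_le (by positivity)]
  intro A
  rw [BoundedContinuousFunction.coe_sub, Pi.sub_apply, Real.norm_eq_abs]
  exact hN A m hm

lemma Pm_conv (G : StoneCech ℕ →ᵇ X) : ∃ f : K →ᵇ ℝ, Tendsto (fun m => Pm m G) atTop (𝓝 f) :=
  cauchySeq_tendsto_of_complete (Pm_cauchy G)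

/-- the operator `P` -/
def PP : (StoneCech ℕ →ᵇ X) →L[ℝ] (K →ᵇ ℝ) :=
  continuousLinearMapOfTendsto Pm (f := fun G => (Pm_conv G).choose)
    (tendsto_pi_nhds.2 fun G => (Pm_conv G).choose_spec)

lemma PP_tendsto (G : StoneCech ℕ →ᵇ X) : Tendsto (fun m => Pm m G) atTop (𝓝 (PP G)) :=
  (Pm_conv G).choose_spec

lemma PP_tendsto_apply (G : StoneCech ℕ →ᵇ X) (A : K) :
    Tendsto (fun m => phi (rs G) m A) atTop (𝓝 (PP G A)) := by
  have h := ((BoundedContinuousFunction.evalCLM ℝ A : (K →ᵇ ℝ) →L[ℝ] ℝ).continuous).tendsto (PP G)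
  exact h.comp (PP_tendsto G)

end

end Pool.Agent.W688.CBX
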