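import Mathlib
import Pool.Agent.W688.CBX.OpP

/-!
The operator `J` from `C(2 ^ ℕ)` to `C(β ℕ, X)` and `P ∘ J = id`.
-/

set_option autoImplicit false
open Filter Topology
open scoped BoundedContinuousFunction ENNReal

namespace Pool.Agent.W688.CBX

noncomputable section

/-- the signs of the word agree with the digits of `n` -/
def chi (n : ℕ) : W → Bool
  | [] => true
  | none :: l => chi n l
  | some b :: l => chi n l && (b == n.testBit l.length)

/-- the support of a word -/
def pt : W → K
  | [] => fun _ => false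
  | none :: l => pt l
  | some _ :: l => Function.update (pt l) l.length true

/-- the values of `J f` -/
def val (f : K → ℝ) (n : ℕ) : W → ℝ
  | [] => f (pt [])
  | none :: l => val f n l
  | some b :: l => val f n l + (if chi n l = true then
      (if b = n.testBit l.length then 1 else -1) * (f (pt (some b :: l)) - f (pt l)) else 0)

lemma val_of_chi (f : K → ℝ) (n : ℕ) (l : W) (h : chi n l = true) : val f n l = f (pt l) := by
  induction l with
  | nil => rfl
  | cons a l ih =>
    cases a with
    | none => exact ih h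
    | some b =>
      simp only [chi, Bool.and_eq_true, beq_iff_eq] at h
      simp only [val]
      rw [if_pos h.1, if_pos h.2, ih h.1]
      ring

lemma val_le (f : K → ℝ) {C : ℝ} (hC : ∀ A, |f A| ≤ C) (n : ℕ) (l : W) : |val f n l| ≤ 3 * C := by
  have hC0 : 0 ≤ C := (abs_nonneg _).trans (hC (pt []))
  induction l with
  | nil => exact (hC _).trans (by linarith)
  | cons a l ih =>
    cases a with
    | none => exact ih
    | some b =>
      simp only [val]
      by_cases h : chi n l = true
      · rw [if_pos h, val_of_chi f n l h]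
        have h1 := abs_le.1 (hC (pt l))
        have h2 := abs_le.1 (hC (pt (some b :: l)))
        rw [abs_le]
        split_ifs
        · constructor <;> linarith [h1.1, h1.2, h2.1, h2.2]
        · constructor <;> linarith [h1.1, h1.2, h2.1, h2.2]
      · rw [if_neg h, add_zero]
        exact ih

lemma val_add (f g : K → ℝ) (n : ℕ) (l : W) :
    val (fun A => f A + g A) n l = val f n l + val g n l := by
  induction l with
  | nil => rfl
  | cons a l ih =>
    cases a with
    | none => exact ih
    | some b =>
      simp only [val, ih]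
      split_ifs <;> ring

lemma val_smul (c : ℝ) (f : K → ℝ) (n : ℕ) (l : W) :
    val (fun A => c * f A) n l = c * val f n l := by
  induction l with
  | nil => rfl
  | cons a l ih =>
    cases a with
    | none => exact ih
    | some b =>
      simp only [val, ih]
      split_ifs <;> ring

/-- the element of `X` -/
def Jn (f : K →ᵇ ℝ) (n : ℕ) : X :=
  ⟨⟨val f n, by
    apply memℓp_infty
    refine ⟨3 * ‖f‖, ?_⟩
    rintro _ ⟨l, rfl⟩
    show ‖val f n l‖ ≤ 3 * ‖f‖
    rw [Real.norm_eq_abs]
    exact val_le f (fun A => f.norm_coe_le_norm A) n l⟩, by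
    rw [mem_Xsub]
    refine ⟨fun l => rfl, fun l => ?_⟩
    show val f n (some true :: l) + val f n (some false :: l) = 2 * val f n l
    simp only [val]
    have : pt (some true :: l) = pt (some false :: l) := rfl
    rw [this]
    cases n.testBit l.length
    · simp only [if_true, if_false, reduceCtorEq]
      split_ifs <;> ring
    · simp only [if_true, if_false, reduceCtorEq]
      split_ifs <;> ring⟩

lemma Jn_apply (f : K →ᵇ ℝ) (n : ℕ) (l : W) : (Jn f n : LI) l = val f n l := rfl

lemma X_norm_le {x : X} {C : ℝ} (hC : 0 ≤ C) (h : ∀ l, |(x : LI) l| ≤ C) : ‖x‖ ≤ C := by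
  show ‖(x : LI)‖ ≤ C
  exact lp.norm_le_of_forall_le hC fun l => by rw [Real.norm_eq_abs]; exact h l

lemma Jn_norm_le (f : K →ᵇ ℝ) (n : ℕ) : ‖Jn f n‖ ≤ 3 * ‖f‖ :=
  X_norm_le (by positivity) fun l => val_le f (fun A => f.norm_coe_le_norm A) n l

lemma X_ext {x y : X} (h : ∀ l, (x : LI) l = (y : LI) l) : x = y :=
  Subtype.ext (lp.ext (funext h))

lemma Jn_add (f g : K →ᵇ ℝ) (n : ℕ) : Jn (f + g) n = Jn f n + Jn g n := by
  refine X_ext fun l => ?_
  rw [Jn_apply, Submodule.coe_add, lp.coeFn_add, Pi.add_apply, Jn_apply, Jn_apply, ← val_add]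
  rfl

lemma Jn_smul (c : ℝ) (f : K →ᵇ ℝ) (n : ℕ) : Jn (c • f) n = c • Jn f n := by
  refine X_ext fun l => ?_
  rw [Jn_apply, Submodule.coe_smul, lp.coeFn_smul, Pi.smul_apply, Jn_apply, smul_eq_mul,
    ← val_smul]
  rfl

lemma Jn_sub (f g : K →ᵇ ℝ) (n : ℕ) : Jn (f - g) n = Jn f n - Jn g n := by
  have h := Jn_add (f - g) g n
  rw [sub_add_cancel] at h
  rw [h, add_sub_cancel_right]

/-- truncation -/
def tr (m : ℕ) (A : K) : K := fun i => if i < m then A i else false

lemma tr_cont (m : ℕ) : Continuous (tr m) := by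
  refine continuous_pi fun i => ?_
  unfold tr
  by_cases h : i < m
  · simp only [h, if_true]
    exact continuous_apply i
  · simp only [h, if_false]
    exact continuous_const

lemma unif_tr (f : K →ᵇ ℝ) {ε : ℝ} (hε : 0 < ε) : ∃ N, ∀ m ≥ N, ∀ A, |f A - f (tr m A)| ≤ ε := by
  have hloc : ∀ A : K, ∃ m : ℕ, ∀ B : K, (∀ i < m, B i = A i) → |f B - f A| < ε / 2 := by
    intro A
    have hopen : IsOpen (f ⁻¹' Metric.ball (f A) (ε / 2)) := Metric.isOpen_ball.preimage f.continuous
    rw [isOpen_pi_iff] at hopen
    obtain ⟨I, u, hu, hsub⟩ := hopen A (by simp [hε])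
    refine ⟨I.sup id + 1, fun B hB => ?_⟩
    have : B ∈ f ⁻¹' Metric.ball (f A) (ε / 2) := by
      apply hsub
      intro i hi
      rw [hB i (Nat.lt_succ_of_le (Finset.le_sup (f := id) hi))]
      exact (hu i hi).2
    simpa [Real.dist_eq] using this
  choose M hM using hloc
  have hcov : (Set.univ : Set K) ⊆ ⋃ A : K, {B : K | ∀ i < M A, B i = A i} := by
    intro A _
    rw [Set.mem_iUnion]
    exact ⟨A, fun _ _ => rfl⟩
  have hop : ∀ A : K, IsOpen {B : K | ∀ i < M A, B i = A i} := by
    intro A
    have : {B : K | ∀ i < M A, B i = A i} = ⋂ i ∈ Finset.range (M A), (fun B : K => B i) ⁻¹' {A i} := by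
      ext B
      simp
    rw [this]
    exact isOpen_biInter_finset fun i _ => (isOpen_discrete _).preimage (continuous_apply i)
  obtain ⟨t, ht⟩ := isCompact_univ.elim_finite_subcover _ hop hcov
  refine ⟨t.sup M, fun m hm A => ?_⟩
  have hA := ht (Set.mem_univ A)
  simp only [Set.mem_iUnion, exists_prop] at hA
  obtain ⟨B, hB, hAB⟩ := hA
  have hmB : M B ≤ m := (Finset.le_sup hB).trans hm
  have h1 := hM B A hAB
  have h2 := hM B (tr m A) (fun i hi => by
    unfold tr
    rw [if_pos (lt_of_lt_of_le hi hmB)]
    exact hAB i hi)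
  rw [abs_lt] at h1 h2
  rw [abs_le]
  constructor <;> linarith [h1.1, h1.2, h2.1, h2.2]

/-- the truncated function -/
def trf (m : ℕ) (f : K →ᵇ ℝ) : K →ᵇ ℝ := f.compContinuous ⟨tr m, tr_cont m⟩

lemma trf_apply (m : ℕ) (f : K →ᵇ ℝ) (A : K) : trf m f A = f (tr m A) := rfl

lemma chi_congr {n n' m : ℕ} (h : ∀ i < m, n.testBit i = n'.testBit i) (l : W)
    (hl : l.length ≤ m) : chi n l = chi n' l := by
  induction l with
  | nil => rfl
  | cons a l ih =>
    rw [List.length_cons] at hl
    cases a with
    | none => exact ih (by omega)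
    | some b =>
      simp only [chi]
      rw [ih (by omega), h _ (by omega)]

lemma val_congr {n n' m : ℕ} (h : ∀ i < m, n.testBit i = n'.testBit i) (f : K →ᵇ ℝ) (l : W) :
    val (trf m f) n l = val (trf m f) n' l := by
  induction l with
  | nil => rfl
  | cons a l ih =>
    cases a with
    | none => exact ih
    | some b =>
      simp only [val]
      rw [ih]
      by_cases hl : l.length < m
      · rw [chi_congr h l hl.le, h _ hl]
      · have : trf m f (pt (some b :: l)) = trf m f (pt l) := by
          rw [trf_apply, trf_apply]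
          congr 1
          funext i
          unfold tr
          split_ifs with hi
          · simp only [pt]
            rw [Function.update_of_ne (by omega)]
          · rfl
        rw [this]
        simp

lemma Jn_mod (f : K →ᵇ ℝ) (m n : ℕ) : Jn (trf m f) n = Jn (trf m f) (n % 2 ^ m) := by
  refine X_ext fun l => ?_
  rw [Jn_apply, Jn_apply]
  refine val_congr (fun i hi => ?_) f l
  rw [Nat.testBit_mod_two_pow]
  simp [hi]

lemma TB_Jn (f : K →ᵇ ℝ) : TB (Jn f) := by
  intro ε hε
  obtain ⟨N, hN⟩ := unif_tr f (ε := ε / 3) (by positivity)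
  refine ⟨2 ^ N, fun i => Jn (trf N f) i, fun n => ⟨n % 2 ^ N, Nat.mod_lt _ (by positivity)⟩,
    fun n => ?_⟩
  show ‖Jn f n - Jn (trf N f) (n % 2 ^ N)‖ ≤ ε
  rw [← Jn_mod, ← Jn_sub]
  have h1 : ‖f - trf N f‖ ≤ ε / 3 := by
    rw [BoundedContinuousFunction.norm_le (by positivity)]
    intro A
    rw [BoundedContinuousFunction.coe_sub, Pi.sub_apply, Real.norm_eq_abs, trf_apply]
    exact hN N le_rfl A
  refine (Jn_norm_le _ _).trans ?_
  linarith

/-- extension to the Stone-Cech compactification -/
lemma exists_ext {u : ℕ → X} (hu : TB u) : ∃ G : StoneCech ℕ → X, Continuous G ∧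
    ∀ n, G (stoneCechUnit n) = u n := by
  have htb : TotallyBounded (Set.range u) := by
    rw [Metric.totallyBounded_iff]
    intro ε hε
    obtain ⟨k, x, ι, h⟩ := hu (ε / 2) (by positivity)
    refine ⟨Set.range x, Set.finite_range x, ?_⟩
    rintro _ ⟨n, rfl⟩
    simp only [Set.mem_iUnion, exists_prop]
    refine ⟨x (ι n), ⟨ι n, rfl⟩, ?_⟩
    rw [Metric.mem_ball, dist_eq_norm]
    exact lt_of_le_of_lt (h n) (half_lt_self hε)
  have hc : IsCompact (closure (Set.range u)) :=
    isCompact_iff_totallyBounded_isComplete.2 ⟨htb.closure, isClosed_closure.isComplete⟩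
  have : CompactSpace (closure (Set.range u)) := isCompact_iff_compactSpace.1 hc
  let v : ℕ → closure (Set.range u) := fun n => ⟨u n, subset_closure ⟨n, rfl⟩⟩
  have hv : Continuous v := continuous_of_discreteTopology
  refine ⟨Subtype.val ∘ stoneCechExtend hv,
    continuous_subtype_val.comp (continuous_stoneCechExtend hv), fun n => ?_⟩
  rw [Function.comp_apply, stoneCechExtend_stoneCechUnit hv]

/-- the function `J f` -/
def Jf (f : K →ᵇ ℝ) : StoneCech ℕ → X := (exists_ext (TB_Jn f)).choose

lemma Jf_cont (f : K →ᵇ ℝ) : Continuous (Jf f) := (exists_ext (TB_Jn f)).choose_spec.1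

lemma Jf_unit (f : K →ᵇ ℝ) (n : ℕ) : Jf f (stoneCechUnit n) = Jn f n :=
  (exists_ext (TB_Jn f)).choose_spec.2 n

/-- the operator `J` -/
def JJ : (K →ᵇ ℝ) →L[ℝ] (StoneCech ℕ →ᵇ X) :=
  LinearMap.mkContinuous
    { toFun := fun f => BoundedContinuousFunction.mkOfCompact ⟨Jf f, Jf_cont f⟩
      map_add' := fun f g => by
        ext1 p
        simp only [BoundedContinuousFunction.mkOfCompact_apply, ContinuousMap.coe_mk,
          BoundedContinuousFunction.coe_add, Pi.add_apply]
        have : Jf (f + g) = fun p => Jf f p + Jf g p := by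
          refine stoneCech_hom_ext (Jf_cont _) ((Jf_cont f).add (Jf_cont g)) ?_
          funext n
          simp only [Function.comp, Jf_unit, Jn_add]
        rw [this]
      map_smul' := fun c f => by
        ext1 p
        simp only [BoundedContinuousFunction.mkOfCompact_apply, ContinuousMap.coe_mk,
          BoundedContinuousFunction.coe_smul, RingHom.id_apply]
        have : Jf (c • f) = fun p => c • Jf f p := by
          refine stoneCech_hom_ext (Jf_cont _) ((Jf_cont f).const_smul c) ?_
          funext n
          simp only [Function.comp, Jf_unit, Jn_smul]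
        rw [this] } 3 (fun f => by
      rw [BoundedContinuousFunction.norm_le (by positivity)]
      intro p
      have hcl : IsClosed {p : StoneCech ℕ | ‖Jf f p‖ ≤ 3 * ‖f‖} :=
        isClosed_le (Jf_cont f).norm continuous_const
      have hd := denseRange_stoneCechUnit (α := ℕ)
      have : closure (Set.range (stoneCechUnit : ℕ → StoneCech ℕ)) ⊆
          {p : StoneCech ℕ | ‖Jf f p‖ ≤ 3 * ‖f‖} := by
        refine closure_minimal ?_ hcl
        rintro _ ⟨n, rfl⟩
        show ‖Jf f (stoneCechUnit n)‖ ≤ _
        rw [Jf_unit]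
        exact Jn_norm_le f n
      exact this (hd p))

lemma rs_JJ (f : K →ᵇ ℝ) (n : ℕ) : rs (JJ f) n = Jn f n := Jf_unit f n

lemma chi_gam (A : K) (n m : ℕ) : chi n (gam A n m) = true := by
  induction m with
  | zero => rfl
  | succ m ih =>
    simp only [gam]
    split_ifs
    · simp only [chi, ih, gam_length, Bool.true_and, beq_self_eq_true]
    · exact ih

lemma pt_gam (A : K) (n m : ℕ) : pt (gam A n m) = tr m A := by
  induction m with
  | zero => rfl
  | succ m ih =>
    simp only [gam]
    funext i
    by_cases hA : A m = true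
    · rw [if_pos hA]
      simp only [pt, gam_length, ih]
      by_cases hi : i = m
      · subst hi
        simp [tr, hA]
      · rw [Function.update_of_ne hi]
        unfold tr
        by_cases h1 : i < m
        · rw [if_pos h1, if_pos (by omega)]
        · rw [if_neg h1, if_neg (by omega)]
    · rw [if_neg hA]
      simp only [pt, ih]
      unfold tr
      by_cases h1 : i < m
      · rw [if_pos h1, if_pos (by omega)]
      · rw [if_neg h1]
        by_cases h2 : i < m + 1
        · rw [if_pos h2]
          have : i = m := by omega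
          subst this
          simpa using hA
        · rw [if_neg h2]

/-- `P ∘ J = id` -/
theorem PP_JJ : PP.comp JJ = ContinuousLinearMap.id ℝ (K →ᵇ ℝ) := by
  ext f A
  rw [ContinuousLinearMap.comp_apply, ContinuousLinearMap.id_apply]
  refine tendsto_nhds_unique (PP_tendsto_apply (JJ f) A) ?_
  have h1 : ∀ m, phi (rs (JJ f)) m A = f (tr m A) := by
    intro m
    have : (fun n => DD (rs (JJ f) n) A m n) = fun _ => f (tr m A) := by
      funext n
      unfold DD
      rw [rs_JJ, Jn_apply, val_of_chi _ _ _ (chi_gam A n m), pt_gam]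
    unfold phi
    rw [this, Lam_const]
  simp only [h1]
  rw [Metric.tendsto_atTop]
  intro ε hε
  obtain ⟨N, hN⟩ := unif_tr f (ε := ε / 2) (by positivity)
  refine ⟨N, fun m hm => ?_⟩
  rw [dist_comm, Real.dist_eq]
  exact lt_of_le_of_lt (hN m hm A) (half_lt_self hε)

end

end Pool.Agent.W688.CBX
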