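import Mathlib

/-!
A countable compact Hausdorff space with enough clopen sets is a retract of the Cantor space; the
case of the ordinal interval `[0, ω ^ ω]`.
-/

set_option autoImplicit false
open Filter Topology Ordinal

namespace Pool.Agent.W688.CBX

/-- a compact space separated by countably many clopen sets is a retract of the Cantor space -/
theorem exists_retract {Z : Type*} [TopologicalSpace Z] [CompactSpace Z] [Nonempty Z]
    (a : Z → ℕ → Bool) (ha : Continuous a) (hi : Function.Injective a) :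
    ∃ b : (ℕ → Bool) → Z, Continuous b ∧ ∀ z, b (a z) = z := by
  have hcl : IsClosedEmbedding a := ha.isClosedEmbedding hi
  obtain ⟨r, hr, -, hrc⟩ := PiNat.exists_retraction_subtype_of_isClosed
    (E := fun _ : ℕ => Bool) hcl.isClosed_range (Set.range_nonempty a)
  let e : Z ≃ₜ Set.range a := hcl.toIsEmbedding.toHomeomorph
  refine ⟨fun A => e.symm (r A), e.symm.continuous.comp hrc, fun z => ?_⟩
  have h1 : r (a z) = ⟨a z, z, rfl⟩ := hr ⟨a z, z, rfl⟩
  show e.symm (r (a z)) = z
  rw [h1]
  have h2 : (⟨a z, z, rfl⟩ : Set.range a) = e z := rfl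
  rw [h2, e.symm_apply_apply]

theorem countable_Icc {ξ : Ordinal.{0}} (hξ : ξ.card ≤ Cardinal.aleph0) :
    Countable (Set.Icc (0 : Ordinal.{0}) ξ) := by
  have h1 : Countable (Order.succ ξ).ToType := by
    rw [← Cardinal.mk_le_aleph0_iff, Cardinal.mk_toType, Order.succ_eq_add_one,
      Ordinal.card_add, Ordinal.card_one]
    exact Cardinal.add_le_aleph0.mpr ⟨hξ, Cardinal.one_le_aleph0⟩
  have e1 : (Order.succ ξ).ToType ≃o Set.Iio (Order.succ ξ) :=
    (Ordinal.ToType.mk (o := Order.succ ξ)).symm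
  have h2 : Countable (Set.Iio (Order.succ ξ)) := e1.symm.toEquiv.countable_iff.2 h1
  have h3 : Set.Icc 0 ξ ⊆ Set.Iio (Order.succ ξ) := fun x hx => Order.lt_succ_of_le hx.2
  exact (Set.countable_coe_iff.1 h2).mono h3 |>.to_subtype

theorem card_omega : (ω ^ ω : Ordinal.{0}).card ≤ Cardinal.aleph0 := by
  refine (Ordinal.card_opow_le ω _).trans ?_
  rw [Ordinal.card_omega0]
  exact max_le le_rfl (max_le le_rfl le_rfl)

/-- the ordinal interval `[0, ω ^ ω]` is a retract of the Cantor space -/
theorem exists_ab : ∃ (a : Set.Icc (0 : Ordinal.{0}) (ω ^ ω) → ℕ → Bool)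
    (b : (ℕ → Bool) → Set.Icc (0 : Ordinal.{0}) (ω ^ ω)), Continuous a ∧ Continuous b ∧
      ∀ z, b (a z) = z := by
  classical
  have hc : CompactSpace (Set.Icc (0 : Ordinal.{0}) (ω ^ ω)) :=
    isCompact_iff_compactSpace.mp isCompact_Icc
  have hn : Nonempty (Set.Icc (0 : Ordinal.{0}) (ω ^ ω)) := ⟨⟨0, le_rfl, bot_le⟩⟩
  have hcount : Countable (Set.Icc (0 : Ordinal.{0}) (ω ^ ω)) := countable_Icc card_omega
  obtain ⟨f, hf⟩ := exists_surjective_nat (Set.Icc (0 : Ordinal.{0}) (ω ^ ω))
  let a : Set.Icc (0 : Ordinal.{0}) (ω ^ ω) → ℕ → Bool := fun z i => decide (z ≤ f i)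
  have hopen : ∀ i, IsClopen {z : Set.Icc (0 : Ordinal.{0}) (ω ^ ω) | z ≤ f i} := by
    intro i
    have h1 : {z : Set.Icc (0 : Ordinal.{0}) (ω ^ ω) | z ≤ f i} =
        Subtype.val ⁻¹' Set.Iic (f i : Ordinal.{0}) := rfl
    have h2 : {z : Set.Icc (0 : Ordinal.{0}) (ω ^ ω) | z ≤ f i} =
        Subtype.val ⁻¹' Set.Iio (Order.succ (f i : Ordinal.{0})) := by
      ext z
      simp
    constructor
    · rw [h1]
      exact isClosed_Iic.preimage continuous_subtype_val
    · rw [h2]
      exact isOpen_Iio.preimage continuous_subtype_val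
  have ha : Continuous a := by
    refine continuous_pi fun i => ?_
    rw [continuous_discrete_rng]
    intro b
    cases b with
    | true =>
      have : (fun z => a z i) ⁻¹' {true} = {z | z ≤ f i} := by
        ext z; simp [a]
      rw [this]
      exact (hopen i).isOpen
    | false =>
      have : (fun z => a z i) ⁻¹' {false} = {z | z ≤ f i}ᶜ := by
        ext z; simp [a]
      rw [this]
      exact (hopen i).compl.isOpen
  have hinj : Function.Injective a := by
    intro x y hxy
    obtain ⟨i, hi⟩ := hf x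
    obtain ⟨j, hj⟩ := hf y
    have h1 := congrFun hxy i
    have h2 := congrFun hxy j
    simp only [a, hi, hj, decide_eq_decide] at h1 h2
    exact le_antisymm (h2.2 le_rfl) (h1.1 le_rfl)
  obtain ⟨b, hb, hab⟩ := exists_retract a ha hinj
  exact ⟨a, b, ha, hb, hab⟩

end Pool.Agent.W688.CBX
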